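import Pool.Agent.R966.CD.Upper
import Pool.Agent.R966.CD.LowDim2

/-!
High-dimensional Brownian traces are not minimal for conformal dimension.
-/

set_option autoImplicit false

namespace Pool.Agent.Results.MP_d65fed_pr.HighDimNotMinimal

open MeasureTheory ProbabilityTheory Pool.Agent.R966.CD
open scoped NNReal ENNReal

universe u

/-- A homeomorphism `f : X → Y` between metric spaces is quasisymmetric: there is a homeomorphism
`η : [0,∞) → [0,∞)` such that `d(x,a) ≤ t d(x,b)` implies `d(f x, f a) ≤ η t * d(f x, f b)`. -/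
def Quasisymmetric {X Y : Type} [MetricSpace X] [MetricSpace Y] (f : X ≃ₜ Y) : Prop :=
  ∃ η : ℝ≥0 ≃ₜ ℝ≥0, ∀ (x a b : X) (t : ℝ≥0), dist x a ≤ t * dist x b →
    dist (f x) (f a) ≤ η t * dist (f x) (f b)

/-- The conformal dimension of a metric space: the infimum of the Hausdorff dimensions of its
quasisymmetric images. -/
noncomputable def confDim (X : Type) [MetricSpace X] : ℝ≥0∞ :=
  ⨅ (Y : Type) (_ : MetricSpace Y) (f : X ≃ₜ Y) (_ : Quasisymmetric f), dimH (Set.univ : Set Y)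

/-- The trace `B([0,1])`. -/
def trace {n : ℕ} {Ω : Type u} (B : ℝ≥0 → Ω → EuclideanSpace ℝ (Fin n)) (ω : Ω) :
    Set (EuclideanSpace ℝ (Fin n)) :=
  (fun t => B t ω) '' Set.Icc 0 1

theorem trace_eq {n : ℕ} {Ω : Type u} (B : ℝ≥0 → Ω → EuclideanSpace ℝ (Fin n)) (ω : Ω) :
    trace B ω = Tr (path B ω) := by
  ext y
  constructor
  · rintro ⟨t, ht, rfl⟩
    refine ⟨t, ⟨t.2, by exact_mod_cast ht.2⟩, ?_⟩
    show B (t : ℝ).toNNReal ω = B t ω
    rw [Real.toNNReal_coe]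
  · rintro ⟨t, ht, rfl⟩
    refine ⟨t.toNNReal, ⟨zero_le, ?_⟩, rfl⟩
    have := Real.toNNReal_le_toNNReal ht.2
    rwa [Real.toNNReal_one] at this

theorem confDim_le {n : ℕ} (T S : Set (EuclideanSpace ℝ (Fin n))) (h : T = S) (q : ℝ≥0)
    (hW : ∃ W : Wt S, (∃ η : ℝ≥0 ≃ₜ ℝ≥0, ∀ (x a c : S) (t : ℝ≥0), dist x a ≤ t * dist x c →
      dist (W.homeo x) (W.homeo a) ≤ η t * dist (W.homeo x) (W.homeo c)) ∧
      dimH (Set.univ : Set W.Y) ≤ q) : confDim T ≤ q := by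
  subst h
  obtain ⟨W, ⟨η, hη⟩, hd⟩ := hW
  refine le_trans ?_ hd
  unfold confDim
  exact iInf_le_of_le W.Y (iInf_le_of_le inferInstance (iInf_le_of_le W.homeo
    (iInf_le_of_le ⟨η, hη⟩ le_rfl)))

/-- **Main result.** For every `q > 1` there is `n0` such that for every `n ≥ n0` and every standard
Brownian motion in `ℝ^n`, almost surely the trace has conformal dimension at most `q`, and it is
not minimal: its conformal dimension is smaller than its Hausdorff dimension. -/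
theorem result (q : ℝ≥0) (hq : 1 < q) : ∃ n0 : ℕ, ∀ n ≥ n0, ∀ (Ω : Type u) [MeasurableSpace Ω]
    (P : Measure Ω) [IsProbabilityMeasure P] (B : ℝ≥0 → Ω → EuclideanSpace ℝ (Fin n)), IsBM P B →
    ∀ᵐ ω ∂P, confDim (trace B ω) ≤ q ∧ confDim (trace B ω) < dimH (trace B ω) := by
  obtain ⟨q', hq1, hq2, hq3⟩ : ∃ q' : ℝ≥0, 1 < q' ∧ q' ≤ q ∧ q' < 3/2 := by
    refine ⟨min q (5/4), lt_min hq ?_, min_le_left _ _, lt_of_le_of_lt (min_le_right _ _) ?_⟩
    · rw [lt_div_iff₀ (by norm_num)]; norm_num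
    · rw [div_lt_div_iff₀ (by norm_num) (by norm_num)]; norm_num
  obtain ⟨n0, hn0⟩ := upper.{u} q' hq1
  refine ⟨max n0 3, ?_⟩
  intro n hn Ω _ P _ B hB
  have hn1 : n0 ≤ n := le_trans (le_max_left _ _) hn
  have hn2 : 3 ≤ n := le_trans (le_max_right _ _) hn
  filter_upwards [hn0 n hn1 P B hB, low_dim hB hn2] with ω h1 h2
  have h3 : confDim (trace B ω) ≤ q' := confDim_le _ _ (trace_eq B ω) q' h1
  refine ⟨h3.trans (by exact_mod_cast hq2), ?_⟩
  have h4 : ((3/2 : ℝ≥0) : ℝ≥0∞) ≤ dimH (trace B ω) := by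
    rw [trace_eq]
    exact h2
  have h5 : (q' : ℝ≥0∞) < ((3/2 : ℝ≥0) : ℝ≥0∞) := ENNReal.coe_lt_coe.mpr hq3
  exact lt_of_le_of_lt h3 (lt_of_lt_of_le h5 h4)

end Pool.Agent.Results.MP_d65fed_pr.HighDimNotMinimal
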